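import Pool.Agent.Helper7.SV.W5

/-!
# MP_6468e7_an, Q1 in the class of the problem: Burkholder's functional is nonnegative

`∫_ℂ Φ_p(∂f, ∂̄f) ≥ 0` for every `p ∈ (1,∞)` and every `f` in the homogeneous Sobolev space `W^{1,p}` of the plane.
-/

set_option autoImplicit false

open MeasureTheory Complex

noncomputable section

namespace Pool.Agent.Results.MP_6468e7_an.SobolevClass

/-- Burkholder's function `Φ_p(z,w) = α_p ((p*-1)|z| - |w|) (|z|+|w|)^(p-1)`, where `p*` is the maximum of `p` and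
`p' = p/(p-1)`, and `α_p = p (1 - 1/p*)^(p-1)` -/
def Phi (p : ℝ) (z w : ℂ) : ℝ :=
  p * (1 - 1 / max p (p / (p - 1))) ^ (p - 1) * ((max p (p / (p - 1)) - 1) * ‖z‖ - ‖w‖) *
    (‖z‖ + ‖w‖) ^ (p - 1)

/-- `g` is the distributional derivative of `f` in the direction `v`, in the plane -/
def IsDistDeriv (f g : ℂ → ℂ) (v : ℂ) : Prop :=
  ∀ η : ℂ → ℝ, ContDiff ℝ (⊤ : ℕ∞) η → HasCompactSupport η →
    ∫ z, ((fderiv ℝ η z v : ℝ) : ℂ) * f z = -∫ z, ((η z : ℝ) : ℂ) * g z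

/-- `f` is locally integrable and has the distributional derivatives `f_x = fx` and `f_y = fy`, which are in
`L^p(ℂ)` -/
structure IsW1p (p : ℝ) (f fx fy : ℂ → ℂ) : Prop where
  loc : LocallyIntegrable f
  mem_x : MemLp fx (ENNReal.ofReal p)
  mem_y : MemLp fy (ENNReal.ofReal p)
  deriv_x : IsDistDeriv f fx 1
  deriv_y : IsDistDeriv f fy I

/-- **Burkholder's functional is nonnegative.** For every `p ∈ (1,∞)` and every `f` in the homogeneous Sobolev space
`W^{1,p}` of the plane, `Φ_p(∂f, ∂̄f)` is integrable and `∫ Φ_p(∂f, ∂̄f) ≥ 0`, where `∂f = (f_x - i f_y)/2` and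
`∂̄f = (f_x + i f_y)/2`. -/
theorem result : ∀ p : ℝ, 1 < p → ∀ f fx fy : ℂ → ℂ, IsW1p p f fx fy →
    Integrable (fun z => Phi p ((fx z - I * fy z) / 2) ((fx z + I * fy z) / 2)) ∧
      0 ≤ ∫ z, Phi p ((fx z - I * fy z) / 2) ((fx z + I * fy z) / 2) := by
  intro p hp f fx fy h
  have hZ := Helper7.SV.memZW h.mem_x h.mem_y
  exact ⟨Helper7.SV.BF_integrable hp hZ.1 hZ.2,
    Helper7.SV.plane_W_all hp h.loc h.mem_x h.mem_y h.deriv_x h.deriv_y⟩

end Pool.Agent.Results.MP_6468e7_an.SobolevClass
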